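import Pool.Agent.LPC.Stmts

set_option autoImplicit false

noncomputable section

open MeasureTheory Filter Topology
open scoped RealInnerProductSpace

namespace Pool.Agent.LPC.H42

theorem jk (h2 : GftStmt) (h3 : GdrStmt) (h4 : KdrStmt) (n : ℕ) (x : V n) :
    ∀ (k : ℕ) (a : ℝ), 0 < a → JJ n k x a = KK n k x a := by
  intro k
  induction k with
  | zero => exact fun a ha => h2 n x a ha
  | succ k ih =>
    intro a ha
    have e1 := h3 n k x a ha
    have e2 := h4 n k x a ha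
    have e3 : JJ n k x =ᶠ[nhds a] KK n k x := by
      filter_upwards [Ioi_mem_nhds ha] with t ht
      exact ih t ht
    have e4 := (e2.congr_of_eventuallyEq e3).unique e1
    linarith

theorem ev_sum : ∀ (q : List ℤ) (t : ℝ), ev q t = ∑ k ∈ Finset.range q.length, (q.getD k 0 : ℝ) * t ^ k := by
  intro q
  induction q with
  | nil => intro t; simp [ev]
  | cons a l ih =>
    intro t
    rw [ev, ih t, List.length_cons, Finset.sum_range_succ', Finset.mul_sum]
    simp only [List.getD_cons_succ, List.getD_cons_zero, pow_zero, mul_one]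
    rw [add_comm]
    congr 1
    refine Finset.sum_congr rfl (fun k _ => ?_)
    ring

theorem tT_zero (n k j : ℕ) (h : k < j) : tT n k j = 0 := by
  unfold tT
  rw [Nat.choose_eq_zero_of_lt h]
  simp

theorem tr_getD (n : ℕ) (q : List ℤ) (j : ℕ) (hj : j < q.length) :
    (tr n q).getD j 0 = ∑ k ∈ Finset.range q.length, q.getD k 0 * tT n k j := by
  unfold tr
  rw [List.getD_eq_getElem?_getD, List.getElem?_map, List.getElem?_range hj]
  rfl

theorem cos_int (h1 : GinStmt) (n k : ℕ) (x : V n) :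
    Integrable (fun w : V n => ‖w‖ ^ (2 * k) * Real.exp (-‖w‖ ^ 2 / 2) * Real.cos ⟪x, w⟫) := by
  have h := h1 n (2 * k) 1 one_pos
  refine h.mono' ?_ ?_
  · exact (by fun_prop : Continuous (fun w : V n =>
      ‖w‖ ^ (2 * k) * Real.exp (-‖w‖ ^ 2 / 2) * Real.cos ⟪x, w⟫)).aestronglyMeasurable
  · refine Filter.Eventually.of_forall (fun w => ?_)
    rw [norm_mul, Real.norm_of_nonneg (by positivity : (0 : ℝ) ≤
      ‖w‖ ^ (2 * k) * Real.exp (-‖w‖ ^ 2 / 2))]
    have h2 := Real.abs_cos_le_one (⟪x, w⟫)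
    rw [Real.norm_eq_abs]
    have h3 : ‖w‖ ^ (2 * k) * Real.exp (-‖w‖ ^ 2 / 2) * |Real.cos ⟪x, w⟫| ≤
      ‖w‖ ^ (2 * k) * Real.exp (-‖w‖ ^ 2 / 2) := mul_le_of_le_one_right (by positivity) h2
    have h4 : (-1 : ℝ) * ‖w‖ ^ 2 / 2 = -‖w‖ ^ 2 / 2 := by ring
    rw [h4]
    exact h3

theorem ftr (h1 : GinStmt) (h2 : GftStmt) (h3 : GdrStmt) (h4 : KdrStmt) : FtrStmt := by
  intro n q x
  constructor
  · have e1 : (fun w : V n => ev q (‖w‖ ^ 2) * Real.exp (-‖w‖ ^ 2 / 2)) = fun w : V n =>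
        ∑ k ∈ Finset.range q.length, (q.getD k 0 : ℝ) *
          (‖w‖ ^ (2 * k) * Real.exp (-1 * ‖w‖ ^ 2 / 2)) := by
      funext w
      rw [ev_sum, Finset.sum_mul]
      refine Finset.sum_congr rfl (fun k _ => ?_)
      have h4 : (-1 : ℝ) * ‖w‖ ^ 2 / 2 = -‖w‖ ^ 2 / 2 := by ring
      rw [pow_mul, h4]
      ring
    rw [e1]
    exact integrable_finsetSum _ (fun k _ => (h1 n (2 * k) 1 one_pos).const_mul _)
  · have e1 : (fun w : V n => ev q (‖w‖ ^ 2) * Real.exp (-‖w‖ ^ 2 / 2) * Real.cos ⟪x, w⟫) =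
        fun w : V n => ∑ k ∈ Finset.range q.length, (q.getD k 0 : ℝ) *
          (‖w‖ ^ (2 * k) * Real.exp (-‖w‖ ^ 2 / 2) * Real.cos ⟪x, w⟫) := by
      funext w
      rw [ev_sum, Finset.sum_mul, Finset.sum_mul]
      refine Finset.sum_congr rfl (fun k _ => ?_)
      rw [pow_mul]
      ring
    rw [e1, integral_finsetSum _ (fun k _ => (cos_int h1 n k x).const_mul _)]
    have e2 : ∀ k : ℕ, ∫ w : V n, (q.getD k 0 : ℝ) *
          (‖w‖ ^ (2 * k) * Real.exp (-‖w‖ ^ 2 / 2) * Real.cos ⟪x, w⟫) =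
        (q.getD k 0 : ℝ) * ((2 * Real.pi) ^ ((n : ℝ) / 2) *
          (∑ j ∈ Finset.range (k + 1), (tT n k j : ℝ) * (‖x‖ ^ 2) ^ j) *
            Real.exp (-‖x‖ ^ 2 / 2)) := by
      intro k
      rw [integral_const_mul]
      congr 1
      have e3 := jk h2 h3 h4 n x k 1 one_pos
      unfold JJ KK at e3
      have e4 : (fun w : V n => ‖w‖ ^ (2 * k) * Real.exp (-1 * ‖w‖ ^ 2 / 2) * Real.cos ⟪x, w⟫) =
          fun w : V n => ‖w‖ ^ (2 * k) * Real.exp (-‖w‖ ^ 2 / 2) * Real.cos ⟪x, w⟫ := by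
        funext w
        have h4 : (-1 : ℝ) * ‖w‖ ^ 2 / 2 = -‖w‖ ^ 2 / 2 := by ring
        rw [h4]
      rw [e4] at e3
      rw [e3]
      simp only [one_pow, div_one, mul_one, pow_mul]
    have e5 : ∑ k ∈ Finset.range q.length, ∫ w : V n, (q.getD k 0 : ℝ) *
          (‖w‖ ^ (2 * k) * Real.exp (-‖w‖ ^ 2 / 2) * Real.cos ⟪x, w⟫) =
        ∑ k ∈ Finset.range q.length, (q.getD k 0 : ℝ) * ((2 * Real.pi) ^ ((n : ℝ) / 2) *
          (∑ j ∈ Finset.range q.length, (tT n k j : ℝ) * (‖x‖ ^ 2) ^ j) *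
            Real.exp (-‖x‖ ^ 2 / 2)) := by
      refine Finset.sum_congr rfl (fun k hk => ?_)
      rw [e2 k]
      congr 3
      refine Finset.sum_subset ?_ ?_
      · intro j hj
        rw [Finset.mem_range] at hj hk ⊢
        omega
      · intro j _ hj
        rw [Finset.mem_range, not_lt] at hj
        rw [tT_zero n k j (by omega)]
        simp
    rw [e5, ev_sum]
    have e6 : (tr n q).length = q.length := by
      unfold tr
      simp
    rw [e6]
    have e7 : ∑ j ∈ Finset.range q.length, ((tr n q).getD j 0 : ℝ) * (‖x‖ ^ 2) ^ j =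
        ∑ k ∈ Finset.range q.length, (q.getD k 0 : ℝ) *
          ∑ j ∈ Finset.range q.length, (tT n k j : ℝ) * (‖x‖ ^ 2) ^ j := by
      have e8 : ∀ j ∈ Finset.range q.length, ((tr n q).getD j 0 : ℝ) * (‖x‖ ^ 2) ^ j =
          ∑ k ∈ Finset.range q.length, (q.getD k 0 : ℝ) * ((tT n k j : ℝ) * (‖x‖ ^ 2) ^ j) := by
        intro j hj
        rw [tr_getD n q j (Finset.mem_range.1 hj)]
        push_cast
        rw [Finset.sum_mul]
        refine Finset.sum_congr rfl (fun k _ => ?_)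
        ring
      rw [Finset.sum_congr rfl e8, Finset.sum_comm]
      refine Finset.sum_congr rfl (fun k _ => ?_)
      rw [Finset.mul_sum]
    rw [e7, Finset.sum_mul, Finset.mul_sum]
    refine Finset.sum_congr rfl (fun k _ => ?_)
    ring

end Pool.Agent.LPC.H42
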